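import Mathlib
import Pool.Agent.Y949.MP.Mult
import Pool.Agent.H326R2.Pi.Top

/-!
Every word of digits occurs often, and infinitely often, in the expansions of most of the numbers
`x + m π`, `m < M`, and of most integer polynomials in `π`.
-/

set_option autoImplicit false

open Finset Filter

namespace Pool.Agent.Results.MP_57632f_nt.CountsInMultiples

/-- the `j`-th digit of `y` in base `b` (`j ≥ 1`) -/
noncomputable def digit (b : ℕ) (y : ℝ) (j : ℕ) : ℤ := ⌊y * (b : ℝ) ^ j⌋ % (b : ℤ)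

/-- the word `w` of `k` digits stands in the expansion of `y` in base `b` right after the `i`-th
digit -/
def Stands (b k : ℕ) (w : Fin k → Fin b) (y : ℝ) (i : ℕ) : Prop :=
  ∀ s : Fin k, digit b y (i + s + 1) = ((w s : ℕ) : ℤ)

/-- the number of the places `i < n` at which the word `w` stands -/
noncomputable def count (b k : ℕ) (w : Fin k → Fin b) (y : ℝ) (n : ℕ) : ℕ :=
  {i : ℕ | i < n ∧ Stands b k w y i}.ncard

lemma count_eq (b k : ℕ) (w : Fin k → Fin b) (y : ℝ) (n : ℕ) :
    count b k w y n = Pool.Agent.W226.MP.occ b k w y 0 n := by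
  classical
  unfold count Stands digit Pool.Agent.W226.MP.occ Pool.Agent.W226.MP.OccursAt
    Pool.Agent.W226.MP.digit
  rw [← Set.ncard_coe_finset]
  congr 1
  ext i
  simp [Finset.mem_filter, Finset.mem_range]

lemma count_le (b k : ℕ) (w : Fin k → Fin b) (y : ℝ) (h : {i : ℕ | Stands b k w y i}.Finite)
    (n : ℕ) : count b k w y n ≤ {i : ℕ | Stands b k w y i}.ncard :=
  Set.ncard_le_ncard (fun _ hi => hi.2) h

/-- small denominators -/
theorem small_den (x : ℝ) (hx : Irrational x) (n : ℕ) :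
    ∃ c : ℝ, 0 < c ∧ ∀ q : ℕ, 1 ≤ q → q < n → ∀ p : ℤ, c ≤ |q * x - p| := by
  induction n with
  | zero => exact ⟨1, one_pos, fun q _ h => absurd h (Nat.not_lt_zero q)⟩
  | succ n ih =>
    obtain ⟨c, hc, h⟩ := ih
    rcases Nat.eq_zero_or_pos n with hn | hn
    · exact ⟨1, one_pos, fun q h1 h2 => by omega⟩
    · have hirr : Irrational ((n : ℝ) * x) := hx.natCast_mul (by omega)
      have hpos : 0 < |(n : ℝ) * x - round ((n : ℝ) * x)| := by
        rw [abs_pos, sub_ne_zero]
        exact hirr.ne_int _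
      refine ⟨min c |(n : ℝ) * x - round ((n : ℝ) * x)|, lt_min hc hpos, fun q h1 h2 p => ?_⟩
      rcases Nat.lt_succ_iff_lt_or_eq.1 h2 with h3 | h3
      · exact (min_le_left _ _).trans (h q h1 h3 p)
      · rw [h3]
        exact (min_le_right _ _).trans (round_le _ _)

/-- the irrationality measure of `π` for all denominators -/
theorem pi_measure : ∃ c : ℝ, 0 < c ∧ ∀ q : ℕ, 1 ≤ q → ∀ p : ℤ,
    c ≤ (q : ℝ) ^ (5.05 : ℝ) * |q * Real.pi - p| := by
  obtain ⟨q0, hq0⟩ := Pool.Agent.H326R2.Pi.main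
  obtain ⟨c, hc, hsm⟩ := small_den Real.pi irrational_pi q0
  refine ⟨min c 1, lt_min hc one_pos, fun q hq p => ?_⟩
  have hqR : (1 : ℝ) ≤ q := by exact_mod_cast hq
  have hq0R : (0 : ℝ) < q := by linarith
  rcases lt_or_ge q q0 with h | h
  · refine (min_le_left _ _).trans ((hsm q hq h p).trans ?_)
    have h1 : (1 : ℝ) ≤ (q : ℝ) ^ (5.05 : ℝ) := Real.one_le_rpow hqR (by norm_num)
    nlinarith [abs_nonneg ((q : ℝ) * Real.pi - p)]
  · refine (min_le_right _ _).trans ?_
    have h1 := hq0 q h p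
    have e1 : |Real.pi - p / q| = |q * Real.pi - p| / q := by
      rw [← abs_of_pos hq0R, ← abs_div, abs_of_pos hq0R]
      congr 1
      field_simp
    rw [e1, le_div_iff₀ hq0R] at h1
    have h2 : (1 : ℝ) = (q : ℝ) ^ (5.05 : ℝ) * ((q : ℝ) ^ (-(6.05 : ℝ)) * q) := by
      have e2 : (q : ℝ) ^ (-(6.05 : ℝ)) * q = (q : ℝ) ^ (-(5.05 : ℝ)) := by
        rw [show (-(5.05 : ℝ)) = -(6.05 : ℝ) + 1 by norm_num, Real.rpow_add hq0R, Real.rpow_one]
      rw [e2, ← Real.rpow_add hq0R]
      norm_num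
    rw [h2]
    exact mul_le_mul_of_nonneg_left h1 (by positivity)

/-- Let `b ≥ 2`, `k ≥ 1` and `0 < ε < 1`. There are `c, C > 0` such that for all real `x` and all
`M ≥ 2` (1) for every `n` and (2) for infinitely many `n` simultaneously, all but at most
`C M ^ (1 - c)` of the `m < M` are such that every word of `k` digits in base `b` stands at least
`(1 - ε) b ^ (-k) log_b M · log (n / (C log M)) / log 6.05` times at the first `n` places of
`x + m π`; in (2) moreover every such word stands infinitely often in `x + m π`. -/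
theorem result (b k : ℕ) (hb : 2 ≤ b) (hk : 1 ≤ k) (ε : ℝ) (hε : 0 < ε) (hε1 : ε < 1) :
    ∃ c C : ℝ, 0 < c ∧ 0 < C ∧ ∀ (x : ℝ) (M : ℕ), 2 ≤ M →
      (∀ n : ℕ, (({m : ℕ | m < M ∧ ¬ ∀ w : Fin k → Fin b,
          (1 - ε) * (Real.logb b M / (b : ℝ) ^ k) *
              (Real.log (n / (C * Real.log M)) / Real.log 6.05) ≤
            (count b k w (x + m * Real.pi) n : ℝ)}.ncard : ℕ) : ℝ) ≤ C * (M : ℝ) ^ (1 - c)) ∧
      (({m : ℕ | m < M ∧ ¬ ((∀ w : Fin k → Fin b,
          {i : ℕ | Stands b k w (x + m * Real.pi) i}.Infinite) ∧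
        ∃ᶠ n : ℕ in atTop, ∀ w : Fin k → Fin b,
          (1 - ε) * (Real.logb b M / (b : ℝ) ^ k) *
              (Real.log (n / (C * Real.log M)) / Real.log 6.05) ≤
            (count b k w (x + m * Real.pi) n : ℝ))}.ncard : ℕ) : ℝ) ≤ C * (M : ℝ) ^ (1 - c) := by
  classical
  obtain ⟨c0, hc0, hm⟩ := pi_measure
  obtain ⟨c, C, hc, hC, h⟩ := Pool.Agent.Y949.MP.mult Real.pi 5.05 c0 irrational_pi (by norm_num)
    hc0 hm b k hb hk ε hε hε1
  have hbR : (2 : ℝ) ≤ b := by exact_mod_cast hb
  have hlb : 0 < Real.log b := Real.log_pos (by linarith)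
  have hl6 : 0 < Real.log 6.05 := Real.log_pos (by norm_num)
  refine ⟨c, C, hc, hC, fun x M hM => ?_⟩
  have hMR : (2 : ℝ) ≤ M := by exact_mod_cast hM
  have hlM : 0 < Real.log M := Real.log_pos (by linarith)
  have ee : ∀ n : ℕ, (1 - ε) * (Real.log M / ((b : ℝ) ^ k * Real.log b)) *
      (Real.log (n / (C * Real.log M)) / Real.log (1 + 5.05)) =
      (1 - ε) * (Real.logb b M / (b : ℝ) ^ k) *
              (Real.log (n / (C * Real.log M)) / Real.log 6.05) := by
    intro n
    rw [Real.logb, show (1 : ℝ) + 5.05 = 6.05 by norm_num]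
    field_simp
  have hfin : ∀ P : ℕ → Prop, {m : ℕ | m < M ∧ P m}.Finite := fun P =>
    (Set.finite_lt_nat M).subset (fun _ hm => hm.1)
  have hn : ∀ n : ℕ, (({m : ℕ | m < M ∧ ¬ ∀ w : Fin k → Fin b,
          (1 - ε) * (Real.logb b M / (b : ℝ) ^ k) *
              (Real.log (n / (C * Real.log M)) / Real.log 6.05) ≤
            (count b k w (x + m * Real.pi) n : ℝ)}.ncard : ℕ) : ℝ) ≤ C * (M : ℝ) ^ (1 - c) := by
    intro n
    refine le_trans (Nat.cast_le.2 ?_) (h x M n hM)
    rw [← Set.ncard_coe_finset]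
    refine Set.ncard_le_ncard ?_ (Finset.finite_toSet _)
    rintro m ⟨hm, h2⟩
    push Not at h2
    obtain ⟨w, hw⟩ := h2
    rw [count_eq] at hw
    rw [Finset.mem_coe, Finset.mem_filter, Finset.mem_range]
    refine ⟨hm, w, ?_⟩
    rw [ee]
    exact hw
  refine ⟨hn, ?_⟩
  -- the function of `n` tends to infinity
  have hlim : Tendsto (fun n : ℕ => (1 - ε) * (Real.logb b M / (b : ℝ) ^ k) *
              (Real.log (n / (C * Real.log M)) / Real.log 6.05)) atTop atTop := by
    have hlb' : 0 < Real.logb b M := Real.logb_pos (by linarith) (by linarith)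
    apply Tendsto.const_mul_atTop (by
      apply mul_pos (by linarith)
      positivity)
    apply Tendsto.atTop_div_const hl6
    apply Real.tendsto_log_atTop.comp
    exact tendsto_natCast_atTop_atTop.atTop_div_const (by positivity)
  have hev : ∀ m ∈ Finset.range M, ∀ᶠ n : ℕ in atTop,
      (¬ ((∀ w : Fin k → Fin b, {i : ℕ | Stands b k w (x + m * Real.pi) i}.Infinite) ∧
        ∃ᶠ n : ℕ in atTop, ∀ w : Fin k → Fin b,
          (1 - ε) * (Real.logb b M / (b : ℝ) ^ k) *
              (Real.log (n / (C * Real.log M)) / Real.log 6.05) ≤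
            (count b k w (x + m * Real.pi) n : ℝ))) →
      ¬ ∀ w : Fin k → Fin b, (1 - ε) * (Real.logb b M / (b : ℝ) ^ k) *
              (Real.log (n / (C * Real.log M)) / Real.log 6.05) ≤
            (count b k w (x + m * Real.pi) n : ℝ) := by
    intro m _
    by_cases hfr : ∃ᶠ n : ℕ in atTop, ∀ w : Fin k → Fin b,
          (1 - ε) * (Real.logb b M / (b : ℝ) ^ k) *
              (Real.log (n / (C * Real.log M)) / Real.log 6.05) ≤
            (count b k w (x + m * Real.pi) n : ℝ)
    · by_cases hw : ∀ w : Fin k → Fin b, {i : ℕ | Stands b k w (x + m * Real.pi) i}.Infinite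
      · exact Eventually.of_forall (fun n hn => absurd ⟨hw, hfr⟩ hn)
      · push Not at hw
        obtain ⟨w, hw⟩ := hw
        filter_upwards [hlim.eventually_gt_atTop
          (({i : ℕ | Stands b k w (x + m * Real.pi) i}.ncard : ℕ) : ℝ)] with n hn _ hall
        have h1 := hall w
        have h2 : (count b k w (x + m * Real.pi) n : ℝ) ≤
            (({i : ℕ | Stands b k w (x + m * Real.pi) i}.ncard : ℕ) : ℝ) := by
          exact_mod_cast count_le b k w _ hw n
        linarith
    · rw [not_frequently] at hfr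
      filter_upwards [hfr] with n hn _
      exact hn
  obtain ⟨n, hn'⟩ := ((Filter.eventually_all_finset (Finset.range M)).2 hev).exists
  refine le_trans (Nat.cast_le.2 (Set.ncard_le_ncard ?_ (hfin _))) (hn n)
  rintro m ⟨hm, h1⟩
  exact ⟨hm, hn' m (Finset.mem_range.2 hm) h1⟩

end Pool.Agent.Results.MP_57632f_nt.CountsInMultiples
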