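import Pool.Agent.Q39.EC.Step

/-!
# Algebraic relations between the digits of `π` after a few digits have been changed

Let `D(X) = s_1 X + ⋯ + s_L X^L`, where `s_1, …, s_L` are the first `L` digits of a number in base
`b`, at most `e` of which have been replaced by other digits. Counting coefficients, there is
always a relation `h_0 + h_1 D + ⋯ + h_r D^r ≡ 0 mod X^(L+1)` with polynomials `h_j`, not all zero,
of degree at most `L / (r + 1) + 1`; the least possible degree of the `h_j` is the `e`-error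
algebraic complexity of degree `r` (for `r = 1` this is the `e`-error linear complexity, up to
bounded terms). For `π`, for `e`, for the logarithms of rational numbers and for all transcendental
numbers which depend algebraically on one of these we prove the lower bound `L / C^(e+1) - 1`,
where `C` depends only on the number and on `r`, not on the base, on `L` or on `e`: no algebraic
relation of degree `o(L)` can be produced by changing boundedly many digits, and none of degree
`o(√L)` by changing `c log L` digits.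
-/

set_option autoImplicit false

namespace Pool.Agent.Results.MP_57632f_nt.ErrorAlgebraicComplexity

open Finset Polynomial

/-- the `i`-th digit of `x` after the point in base `b` -/
noncomputable def digit (b : ℕ) (x : ℝ) (i : ℕ) : ℤ := ⌊x * (b : ℝ) ^ i⌋ % (b : ℤ)

/-- After replacing at most `e` of the first `L` base `b` digits of `x` by other digits the
polynomial `D = s_1 X + ⋯ + s_L X^L` of the digits satisfies `P(X, D(X)) ≡ 0 mod X^(L+1)` for a
nonzero polynomial `P` over `ℚ` of degree at most `r` in the second and at most `k` in the first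
variable. -/
def ErrRelation (r e b : ℕ) (x : ℝ) (L k : ℕ) : Prop :=
  ∃ s : ℕ → ℤ, (∀ i, 0 ≤ s i ∧ s i < b) ∧ #{i ∈ Icc 1 L | s i ≠ digit b x i} ≤ e ∧
    ∃ P : ℚ[X][X], P ≠ 0 ∧ P.natDegree ≤ r ∧ (∀ j, (P.coeff j).natDegree ≤ k) ∧
      X ^ (L + 1) ∣ P.eval (∑ i ∈ Icc 1 L, C (s i : ℚ) * X ^ i)

/-- the `e`-error algebraic complexity of degree `r` of the first `L` digits of `x` in base `b` -/
noncomputable def errComplexity (r e b : ℕ) (x : ℝ) (L : ℕ) : ℕ :=
  sInf {k | ErrRelation r e b x L k}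

/-- `x` is algebraic over `ℚ(z)`, `z` transcendental: `B(z, x) = 0` for a nonzero integer
polynomial `B` in two variables -/
def AlgebraicOver (z x : ℝ) : Prop :=
  ∃ B : ℤ[X][X], B ≠ 0 ∧ (B.map (aeval z : ℤ[X] →ₐ[ℤ] ℝ).toRingHom).eval x = 0

/-- **Theorem.** Let `x` be a transcendental real number which is algebraic over `ℚ(π)`, over
`ℚ(e)`, or over `ℚ(log q)` for a positive rational number `q ≠ 1`; for instance `x = π`. For every
`r` there is `C` such that for all bases `b ≥ 2` and all `e` and `L` the `e`-error algebraic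
complexity of degree `r` of the first `L` digits of `x` in base `b` is at least
`L / C^(e+1) - 1`. It is at most `L / (r + 1) + 1`. -/
theorem result :
    (∀ r : ℕ, ∃ C : ℕ, ∀ b : ℕ, 2 ≤ b → ∀ e L : ℕ,
      L ≤ C ^ (e + 1) * (errComplexity r e b Real.pi L + 1)) ∧
    (∀ x : ℝ, Transcendental ℤ x →
      (AlgebraicOver Real.pi x ∨ AlgebraicOver (Real.exp 1) x ∨
        ∃ q : ℚ, 0 < q ∧ q ≠ 1 ∧ AlgebraicOver (Real.log q) x) →
      ∀ r : ℕ, ∃ C : ℕ, ∀ b : ℕ, 2 ≤ b → ∀ e L : ℕ,
        L ≤ C ^ (e + 1) * (errComplexity r e b x L + 1)) ∧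
    (∀ (r e b : ℕ) (x : ℝ) (L : ℕ), 1 ≤ b → (errComplexity r e b x L : ℝ) ≤ L / (r + 1) + 1) := by
  have hset : ∀ (r e b : ℕ) (x : ℝ) (L k : ℕ), 1 ≤ b → L + 1 < (r + 1) * (k + 1) →
      ErrRelation r e b x L k := by
    intro r e b x L k hb h
    obtain ⟨P, h1, h2, h3, h4⟩ := Pool.Agent.W472.AC.algRelation_of_lt b x r L k h
    refine ⟨fun i => digit b x i, fun i => ⟨?_, ?_⟩, by simp, P, h1, h2, h3, h4⟩
    · exact Int.emod_nonneg _ (by exact_mod_cast (by omega : b ≠ 0))
    · exact Int.emod_lt_of_pos _ (by exact_mod_cast hb)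
  have hmeas : ∀ x : ℝ, Pool.Agent.TH456.TM.MeasT (x : ℂ) → ∀ r : ℕ, ∃ C : ℕ, ∀ b : ℕ, 2 ≤ b →
      ∀ e L : ℕ, L ≤ C ^ (e + 1) * (errComplexity r e b x L + 1) := by
    intro x hx r
    obtain ⟨κ, c, hκ, hc, h⟩ := hx r
    obtain ⟨C, hC⟩ := Pool.Agent.Q39.EC.grow x r κ c hκ hc (fun P hP hPd H hH hPH => by
      rw [Pool.Agent.TH456.TM.abs_aeval]
      exact h P hP hPd H hH hPH)
    refine ⟨C, fun b hb e L => ?_⟩
    have hne : {k | ErrRelation r e b x L k}.Nonempty :=
      ⟨L + 1, hset r e b x L (L + 1) (by omega) (by nlinarith)⟩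
    obtain ⟨s, hs, hcard, P, hP0, hPr, hPk, hX⟩ := Nat.sInf_mem hne
    have e1 : ∑ i ∈ Icc 1 L, Polynomial.C (s i : ℚ) * X ^ i =
        (Pool.Agent.Q39.EC.SZ s L).map (Int.castRingHom ℚ) := by
      unfold Pool.Agent.Q39.EC.SZ
      rw [Polynomial.map_sum]
      exact Finset.sum_congr rfl fun i _ => by simp
    have h1 := hC b hb s hs L (errComplexity r e b x L) (fun j => P.coeff j) (by
        intro h0
        apply hP0
        ext1 j
        by_cases hj : j < r + 1
        · have := congrFun h0 ⟨j, hj⟩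
          simpa using this
        · rw [coeff_eq_zero_of_natDegree_lt (by omega), coeff_zero])
      (fun j => hPk j) (by
        have e2 : ∑ j : Fin (r + 1), P.coeff j *
            ((Pool.Agent.Q39.EC.SZ s L) ^ (j : ℕ)).map (Int.castRingHom ℚ) =
            P.eval (∑ i ∈ Icc 1 L, Polynomial.C (s i : ℚ) * X ^ i) := by
          rw [eval_eq_sum_range' (show P.natDegree < r + 1 by omega), Finset.sum_range, e1]
          refine Finset.sum_congr rfl fun j _ => ?_
          rw [Polynomial.map_pow]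
        rw [e2]
        exact hX) e L le_rfl hcard
    omega
  have hvl : ∀ (z x : ℝ) (B : ℤ[X][X]),
      (B.map (aeval z : ℤ[X] →ₐ[ℤ] ℝ).toRingHom).eval x = 0 →
      Pool.Agent.TH456.TM.vl (z : ℂ) (x : ℂ) B = 0 := by
    intro z x B hB
    have e1 : Pool.Agent.TH456.TM.σx (z : ℂ) =
        Complex.ofRealHom.comp (aeval z : ℤ[X] →ₐ[ℤ] ℝ).toRingHom := by
      ext
      · simp [Pool.Agent.TH456.TM.σx]
      · simp [Pool.Agent.TH456.TM.σx]
    unfold Pool.Agent.TH456.TM.vl
    rw [e1, ← Polynomial.map_map]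
    have e2 : ((B.map (aeval z : ℤ[X] →ₐ[ℤ] ℝ).toRingHom).map Complex.ofRealHom).eval (x : ℂ) =
        Complex.ofRealHom ((B.map (aeval z : ℤ[X] →ₐ[ℤ] ℝ).toRingHom).eval x) := by
      rw [← Polynomial.eval_map_apply]
      rfl
    rw [e2, hB, map_zero]
  have htr : ∀ x : ℝ, Transcendental ℤ x → Transcendental ℤ (x : ℂ) := by
    intro x hx
    exact (transcendental_algebraMap_iff (R := ℤ) (A := ℂ) (S := ℝ)
      (algebraMap ℝ ℂ).injective).2 hx
  refine ⟨hmeas Real.pi Pool.Agent.TH456.TM.measT_pi, fun x hx hz => hmeas x ?_, ?_⟩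
  · rcases hz with ⟨B, hB0, hB⟩ | ⟨B, hB0, hB⟩ | ⟨q, hq, hq1, B, hB0, hB⟩
    · exact Pool.Agent.TH456.TM.measT_of_rel _ _ Pool.Agent.TH456.TM.measT_pi (htr x hx) B hB0
        (hvl _ _ B hB)
    · exact Pool.Agent.TH456.TM.measT_of_rel _ _ Pool.Agent.TH456.TM.measT_e (htr x hx) B hB0
        (hvl _ _ B hB)
    · exact Pool.Agent.TH456.TM.measT_of_rel _ _ (Pool.Agent.TH456.TM.measT_real_log q hq hq1)
        (htr x hx) B hB0 (hvl _ _ B hB)
  · intro r e b x L hb
    have h1 : L + 1 < (r + 1) * ((L + 1) / (r + 1) + 1) := Nat.lt_mul_div_succ _ (by omega)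
    have h2 : errComplexity r e b x L ≤ (L + 1) / (r + 1) :=
      Nat.sInf_le (hset r e b x L _ hb h1)
    have h3 : (((L + 1) / (r + 1) : ℕ) : ℝ) ≤ ((L : ℝ) + 1) / (r + 1) := by
      have := @Nat.cast_div_le ℝ _ _ _ (L + 1) (r + 1)
      push_cast at this
      exact this
    have h4 : (errComplexity r e b x L : ℝ) ≤ (((L + 1) / (r + 1) : ℕ) : ℝ) := by exact_mod_cast h2
    have h5 : (1 : ℝ) / (r + 1) ≤ 1 := by
      rw [div_le_one (by positivity)]
      linarith [(Nat.cast_nonneg r : (0 : ℝ) ≤ r)]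
    calc (errComplexity r e b x L : ℝ) ≤ ((L : ℝ) + 1) / (r + 1) := h4.trans h3
      _ = L / (r + 1) + 1 / (r + 1) := by rw [add_div]
      _ ≤ _ := by linarith

end Pool.Agent.Results.MP_57632f_nt.ErrorAlgebraicComplexity
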