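import Pool.Agent.TH869.LPD.All
import Pool.Agent.H326R2.Pi.Top

/-!
# Digits of polynomial multiples of `π`, in many bases at once

All but few of the numbers `f(l) π + h(l)`, `l < N`, contain, in every base `b ≤ B`, every block of
`k` digits infinitely often; and there are explicitly located places at which their digits in a
given base are equidistributed with a power saving.
-/

set_option autoImplicit false

namespace Pool.Agent.Results.MP_57632f_nt.PolynomialMultiples

open Polynomial Finset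

/-- the `j`-th digit of `y` in base `b` (`j ≥ 1`) -/
noncomputable def digit (b : ℕ) (y : ℝ) (j : ℕ) : ℤ := ⌊y * (b : ℝ) ^ j⌋ % (b : ℤ)

/-- the word `w` of `k` digits stands in the expansion of `y` in base `b` right after the `i`-th
digit -/
def Stands (b k : ℕ) (w : Fin k → Fin b) (y : ℝ) (i : ℕ) : Prop :=
  ∀ s : Fin k, digit b y (i + s + 1) = ((w s : ℕ) : ℤ)

/-- small denominators -/
theorem small_den (x : ℝ) (hx : Irrational x) (n : ℕ) :
    ∃ c : ℝ, 0 < c ∧ ∀ q : ℕ, 1 ≤ q → q < n → ∀ p : ℤ, c ≤ |q * x - p| := by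
  induction n with
  | zero => exact ⟨1, one_pos, fun q _ h => absurd h (Nat.not_lt_zero q)⟩
  | succ n ih =>
    obtain ⟨c, hc, h⟩ := ih
    rcases Nat.eq_zero_or_pos n with hn | hn
    · exact ⟨1, one_pos, fun q h1 h2 => by omega⟩
    · have hirr : Irrational ((n : ℝ) * x) := hx.natCast_mul (by omega)
      have hpos : 0 < |(n : ℝ) * x - round ((n : ℝ) * x)| := by
        rw [abs_pos, sub_ne_zero]
        exact hirr.ne_int _
      refine ⟨min c |(n : ℝ) * x - round ((n : ℝ) * x)|, lt_min hc hpos, fun q h1 h2 p => ?_⟩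
      rcases Nat.lt_succ_iff_lt_or_eq.1 h2 with h3 | h3
      · exact (min_le_left _ _).trans (h q h1 h3 p)
      · rw [h3]
        exact (min_le_right _ _).trans (round_le _ _)

/-- the irrationality measure of `π` for all denominators -/
theorem pi_measure : ∃ c : ℝ, 0 < c ∧ ∀ q : ℕ, 1 ≤ q → ∀ p : ℤ,
    c ≤ (q : ℝ) ^ (5.05 : ℝ) * |q * Real.pi - p| := by
  obtain ⟨q0, hq0⟩ := Pool.Agent.H326R2.Pi.main
  obtain ⟨c, hc, hsm⟩ := small_den Real.pi irrational_pi q0
  refine ⟨min c 1, lt_min hc one_pos, fun q hq p => ?_⟩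
  have hqR : (1 : ℝ) ≤ q := by exact_mod_cast hq
  have hq0R : (0 : ℝ) < q := by linarith
  rcases lt_or_ge q q0 with h | h
  · refine (min_le_left _ _).trans ((hsm q hq h p).trans ?_)
    have h1 : (1 : ℝ) ≤ (q : ℝ) ^ (5.05 : ℝ) := Real.one_le_rpow hqR (by norm_num)
    nlinarith [abs_nonneg ((q : ℝ) * Real.pi - p)]
  · refine (min_le_right _ _).trans ?_
    have h1 := hq0 q h p
    have e1 : |Real.pi - p / q| = |q * Real.pi - p| / q := by
      rw [← abs_of_pos hq0R, ← abs_div, abs_of_pos hq0R]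
      congr 1
      field_simp
    rw [e1, le_div_iff₀ hq0R] at h1
    have h2 : (1 : ℝ) = (q : ℝ) ^ (5.05 : ℝ) * ((q : ℝ) ^ (-(6.05 : ℝ)) * q) := by
      have e2 : (q : ℝ) ^ (-(6.05 : ℝ)) * q = (q : ℝ) ^ (-(5.05 : ℝ)) := by
        rw [show (-(5.05 : ℝ)) = -(6.05 : ℝ) + 1 by norm_num, Real.rpow_add hq0R, Real.rpow_one]
      rw [e2, ← Real.rpow_add hq0R]
      norm_num
    rw [h2]
    exact mul_le_mul_of_nonneg_left h1 (by positivity)

/-- For every `d` there are `c, C > 0` such that the following holds for all `f ∈ ℤ[X]` with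
`1 ≤ deg f ≤ d`, all `h ∈ ℝ[X]` with `deg h < deg f` and all `N ≥ 1`, where
`y l = f(l) π + h(l)`.
(1) For all `B ≥ 2` and `k ≥ 1`, all but at most `C B ^ (k + 1) N (B / N) ^ (c / (2 k B ^ k log B))` of
the `l < N` are such that in every base `2 ≤ b ≤ B` every block of `k` digits occurs infinitely often
in the expansion of `y l`.
(2) For every base `b ≥ 2` and every place `S` there is a place
`S ≤ s ≤ 6.05 S + 5.05 log_b (N |a|) + C`, `a` the leading coefficient of `f`, such that the number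
of `l < N` with `u ≤ {b ^ s y l} < v` is `(v - u) N` up to an error of `C N (b / N) ^ c`, for all
`0 ≤ u ≤ v ≤ 1`. -/
theorem result (d : ℕ) : ∃ c C : ℝ, 0 < c ∧ 0 < C ∧
    ∀ f : ℤ[X], 1 ≤ f.natDegree → f.natDegree ≤ d →
    ∀ h : ℝ[X], h.natDegree < f.natDegree → ∀ N : ℕ, 1 ≤ N →
      (∀ B k : ℕ, 2 ≤ B → 1 ≤ k →
        ({l : ℕ | l < N ∧ ∃ b : ℕ, 2 ≤ b ∧ b ≤ B ∧ ∃ w : Fin k → Fin b,
          {i : ℕ | Stands b k w (((f.eval (l : ℤ) : ℤ) : ℝ) * Real.pi + h.eval (l : ℝ)) i}.Finite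
          }.ncard : ℝ)
          ≤ C * (B : ℝ) ^ (k + 1) * N * ((B : ℝ) / N) ^ (c / (2 * k * (B : ℝ) ^ k * Real.log B))) ∧
      (∀ b : ℕ, 2 ≤ b → ∀ S : ℕ, ∃ s : ℕ, S ≤ s ∧
        (s : ℝ) ≤ 6.05 * S + 5.05 * (Real.log (N * |(f.leadingCoeff : ℝ)|) / Real.log b) + C ∧
        ∀ u v : ℝ, 0 ≤ u → u ≤ v → v ≤ 1 →
        |({l : ℕ | l < N ∧
            u ≤ Int.fract ((b : ℝ) ^ s * (((f.eval (l : ℤ) : ℤ) : ℝ) * Real.pi + h.eval (l : ℝ))) ∧
            Int.fract ((b : ℝ) ^ s * (((f.eval (l : ℤ) : ℤ) : ℝ) * Real.pi + h.eval (l : ℝ))) < v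
            }.ncard : ℝ) - (v - u) * N|
          ≤ C * N * ((b : ℝ) / N) ^ c) := by
  classical
  obtain ⟨c, hc, hc1, K, hK, hmain⟩ := Pool.Agent.TH869.LPD.poly_words d
  obtain ⟨c0, hc0, hm⟩ := pi_measure
  have hC1 : 0 ≤ |Real.log c0| / Real.log 2 + 1 := by
    have : 0 < Real.log 2 := Real.log_pos (by norm_num)
    positivity
  refine ⟨c, K + (|Real.log c0| / Real.log 2 + 1), hc, by linarith, ?_⟩
  intro f hf1 hf2 h hh N hN
  have hNr : (1:ℝ) ≤ N := by exact_mod_cast hN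
  set C : ℝ := K + (|Real.log c0| / Real.log 2 + 1) with hCdef
  have hCK : K ≤ C := by linarith
  have hC0 : 0 < C := by linarith
  refine ⟨?_, ?_⟩
  · intro B k hB hk
    have hBr : (2:ℝ) ≤ B := by exact_mod_cast hB
    have hkr : (1:ℝ) ≤ k := by exact_mod_cast hk
    have hlB : 0 < Real.log B := Real.log_pos (by linarith)
    set E : ℝ := c / (2 * k * (B:ℝ)^k * Real.log B) with hE
    have hE0 : 0 < E := by positivity
    have hBk : (1:ℝ) ≤ (B:ℝ)^(k+1) := one_le_pow₀ (by linarith)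
    set T : Finset ℕ := (range N).filter (fun l : ℕ => ∃ b : ℕ, 2 ≤ b ∧ b ≤ B ∧
      ∃ w : Fin k → Fin b,
        {i : ℕ | Stands b k w (((f.eval (l : ℤ) : ℤ) : ℝ) * Real.pi + h.eval (l : ℝ)) i}.Finite)
      with hT
    have e1 : {l : ℕ | l < N ∧ ∃ b : ℕ, 2 ≤ b ∧ b ≤ B ∧ ∃ w : Fin k → Fin b,
        {i : ℕ | Stands b k w (((f.eval (l : ℤ) : ℤ) : ℝ) * Real.pi + h.eval (l : ℝ)) i}.Finite} =
        ((T : Finset ℕ) : Set ℕ) := by
      ext l; simp [hT]
    rw [e1, Set.ncard_coe_finset]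
    rcases lt_or_ge (N:ℝ) B with hNB | hNB
    · have h1 : (T.card : ℝ) ≤ N := by
        have : T.card ≤ (range N).card := card_le_card (filter_subset _ _)
        rw [card_range] at this
        exact_mod_cast this
      have h2 : 1 ≤ ((B:ℝ)/N)^E := by
        apply Real.one_le_rpow _ hE0.le
        rw [le_div_iff₀ (by linarith)]; linarith
      calc (T.card : ℝ) ≤ 1 * 1 * N * 1 := by linarith
        _ ≤ C * (B:ℝ)^(k+1) * N * ((B:ℝ)/N)^E := by
          have : (1 : ℝ) ≤ C := by linarith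
          gcongr
    · let Tb : ℕ → Finset ℕ := fun b => (range N).filter (fun l : ℕ =>
        ∃ w : Fin k → Fin b,
          {i : ℕ | Stands b k w (((f.eval (l : ℤ) : ℤ) : ℝ) * Real.pi + h.eval (l : ℝ)) i}.Finite)
      have hTb : ∀ b ∈ Icc 2 B, ((Tb b).card : ℝ) ≤ K * (B:ℝ)^k * N * ((B:ℝ)/N)^E := by
        intro b hb
        rw [mem_Icc] at hb
        obtain ⟨_, h2⟩ := hmain Real.pi 5.05 c0 (by norm_num) hc0 hm b hb.1 f hf1 hf2 h hh N hN
        have h3 := h2 k hk
        have e2 : {l : ℕ | l < N ∧ ∃ w : Fin k → Fin b,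
            {p : ℕ | Pool.Agent.W226.MP.OccursAt b k w
              (Pool.Agent.TH869.LPD.seqv f h Real.pi l) p}.Finite} =
            ((Tb b : Finset ℕ) : Set ℕ) := by
          ext l
          simp only [Tb, Set.mem_setOf_eq, Finset.mem_coe, Finset.mem_filter, Finset.mem_range]
          rfl
        rw [e2, Set.ncard_coe_finset] at h3
        refine h3.trans ?_
        have hbr : (2:ℝ) ≤ b := by exact_mod_cast hb.1
        have hbB : (b:ℝ) ≤ B := by exact_mod_cast hb.2
        have hlb : 0 < Real.log b := Real.log_pos (by linarith)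
        have hlbB : Real.log b ≤ Real.log B := Real.log_le_log (by linarith) hbB
        have h4 : ((b:ℝ)/N)^(c / (2 * k * (b:ℝ)^k * Real.log b)) ≤ ((B:ℝ)/N)^E := by
          calc ((b:ℝ)/N)^(c / (2 * k * (b:ℝ)^k * Real.log b)) ≤ ((b:ℝ)/N)^E := by
                apply Real.rpow_le_rpow_of_exponent_ge (by positivity)
                · rw [div_le_one (by linarith)]; linarith
                · rw [hE]
                  apply div_le_div_of_nonneg_left hc.le (by positivity)
                  gcongr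
            _ ≤ ((B:ℝ)/N)^E := by
                apply Real.rpow_le_rpow (by positivity) _ hE0.le
                gcongr
        gcongr
      have hsub : T ⊆ (Icc 2 B).biUnion Tb := by
        intro l hl
        rw [hT, mem_filter] at hl
        obtain ⟨hl1, b, hb1, hb2, hw⟩ := hl
        rw [mem_biUnion]
        exact ⟨b, mem_Icc.2 ⟨hb1, hb2⟩, mem_filter.2 ⟨hl1, hw⟩⟩
      have h5 : T.card ≤ ∑ b ∈ Icc 2 B, (Tb b).card := (card_le_card hsub).trans card_biUnion_le
      have h6 : (T.card : ℝ) ≤ ∑ b ∈ Icc 2 B, ((Tb b).card : ℝ) := by exact_mod_cast h5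
      refine h6.trans ((sum_le_sum hTb).trans ?_)
      rw [sum_const, nsmul_eq_mul, Nat.card_Icc]
      have h7 : ((B + 1 - 2 : ℕ) : ℝ) ≤ B := by
        have : B + 1 - 2 ≤ B := by omega
        exact_mod_cast this
      have h8 : 0 ≤ K * (B:ℝ)^k * N * ((B:ℝ)/N)^E := by positivity
      calc ((B + 1 - 2 : ℕ) : ℝ) * (K * (B:ℝ)^k * N * ((B:ℝ)/N)^E)
          ≤ B * (K * (B:ℝ)^k * N * ((B:ℝ)/N)^E) := mul_le_mul_of_nonneg_right h7 h8
        _ = K * (B:ℝ)^(k+1) * N * ((B:ℝ)/N)^E := by rw [pow_succ]; ring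
        _ ≤ C * (B:ℝ)^(k+1) * N * ((B:ℝ)/N)^E := by gcongr
  · intro b hb S
    obtain ⟨h1, -⟩ := hmain Real.pi 5.05 c0 (by norm_num) hc0 hm b hb f hf1 hf2 h hh N hN
    obtain ⟨s, h2, h3, h4, -⟩ := h1 S
    refine ⟨s, h2, ?_, ?_⟩
    · refine h3.trans ?_
      norm_num
      linarith
    · intro u v hu huv hv
      have h5 := h4 u v hu huv hv
      rw [Pool.Agent.TH869.LPD.cntArc_eq] at h5
      have e3 : {l : ℕ | l < N ∧
            u ≤ Int.fract ((b : ℝ) ^ s * (((f.eval (l : ℤ) : ℤ) : ℝ) * Real.pi + h.eval (l : ℝ))) ∧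
            Int.fract ((b : ℝ) ^ s * (((f.eval (l : ℤ) : ℤ) : ℝ) * Real.pi + h.eval (l : ℝ))) < v}
            = (((range N).filter (fun l : ℕ =>
              u ≤ Int.fract ((b : ℝ) ^ s * Pool.Agent.TH869.LPD.seqv f h Real.pi l) ∧
              Int.fract ((b : ℝ) ^ s * Pool.Agent.TH869.LPD.seqv f h Real.pi l) < v) :
              Finset ℕ) : Set ℕ) := by
        ext l
        simp only [Set.mem_setOf_eq, Finset.mem_coe, Finset.mem_filter, Finset.mem_range]
        rfl
      rw [e3, Set.ncard_coe_finset]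
      refine h5.trans ?_
      have : 0 ≤ ((b : ℝ) / N) ^ c := by positivity
      gcongr

end Pool.Agent.Results.MP_57632f_nt.PolynomialMultiples
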