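import Pool.Agent.Q220.PrM.Disc
import Pool.Agent.H326R2.Pi.Top

/-!
# Digits of the multiples of `π` by primes

All but few of the numbers `a p π + x`, `p ≤ N` prime (also in a residue class), contain, in every
base `b ≤ B`, every block of `k` digits infinitely often; and there are located places at which
their digits in a given base are equidistributed with a power saving.
-/

set_option autoImplicit false

namespace Pool.Agent.Results.MP_57632f_nt.PrimeMultiples

open Finset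

/-- the `j`-th digit of `y` in base `b` (`j ≥ 1`) -/
noncomputable def digit (b : ℕ) (y : ℝ) (j : ℕ) : ℤ := ⌊y * (b : ℝ) ^ j⌋ % (b : ℤ)

/-- the word `w` of `k` digits stands in the expansion of `y` in base `b` right after the `i`-th
digit -/
def Stands (b k : ℕ) (w : Fin k → Fin b) (y : ℝ) (i : ℕ) : Prop :=
  ∀ s : Fin k, digit b y (i + s + 1) = ((w s : ℕ) : ℤ)

open Classical in
/-- the number of times the word `w` stands in `y` right after one of the `l` places
`s, …, s + l - 1` -/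
noncomputable def count (b k : ℕ) (w : Fin k → Fin b) (y : ℝ) (s l : ℕ) : ℕ :=
  ((range l).filter (fun j => Stands b k w y (s + j))).card

/-- the primes `p ≤ N` with `p ≡ r (mod d)` -/
def primes (N d r : ℕ) : Finset ℕ := (range (N + 1)).filter (fun p => p.Prime ∧ p ≡ r [MOD d])

/-- small denominators -/
theorem small_den (x : ℝ) (hx : Irrational x) (n : ℕ) :
    ∃ c : ℝ, 0 < c ∧ ∀ q : ℕ, 1 ≤ q → q < n → ∀ p : ℤ, c ≤ |q * x - p| := by
  induction n with
  | zero => exact ⟨1, one_pos, fun q _ h => absurd h (Nat.not_lt_zero q)⟩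
  | succ n ih =>
    obtain ⟨c, hc, h⟩ := ih
    rcases Nat.eq_zero_or_pos n with hn | hn
    · exact ⟨1, one_pos, fun q h1 h2 => by omega⟩
    · have hirr : Irrational ((n : ℝ) * x) := hx.natCast_mul (by omega)
      have hpos : 0 < |(n : ℝ) * x - round ((n : ℝ) * x)| := by
        rw [abs_pos, sub_ne_zero]
        exact hirr.ne_int _
      refine ⟨min c |(n : ℝ) * x - round ((n : ℝ) * x)|, lt_min hc hpos, fun q h1 h2 p => ?_⟩
      rcases Nat.lt_succ_iff_lt_or_eq.1 h2 with h3 | h3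
      · exact (min_le_left _ _).trans (h q h1 h3 p)
      · rw [h3]
        exact (min_le_right _ _).trans (round_le _ _)

/-- the irrationality measure of `π` for all denominators -/
theorem pi_measure : ∃ c : ℝ, 0 < c ∧ ∀ q : ℕ, 1 ≤ q → ∀ p : ℤ,
    c ≤ (q : ℝ) ^ (5.05 : ℝ) * |q * Real.pi - p| := by
  obtain ⟨q0, hq0⟩ := Pool.Agent.H326R2.Pi.main
  obtain ⟨c, hc, hsm⟩ := small_den Real.pi irrational_pi q0
  refine ⟨min c 1, lt_min hc one_pos, fun q hq p => ?_⟩
  have hqR : (1 : ℝ) ≤ q := by exact_mod_cast hq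
  have hq0R : (0 : ℝ) < q := by linarith
  rcases lt_or_ge q q0 with h | h
  · refine (min_le_left _ _).trans ((hsm q hq h p).trans ?_)
    have h1 : (1 : ℝ) ≤ (q : ℝ) ^ (5.05 : ℝ) := Real.one_le_rpow hqR (by norm_num)
    nlinarith [abs_nonneg ((q : ℝ) * Real.pi - p)]
  · refine (min_le_right _ _).trans ?_
    have h1 := hq0 q h p
    have e1 : |Real.pi - p / q| = |q * Real.pi - p| / q := by
      rw [← abs_of_pos hq0R, ← abs_div, abs_of_pos hq0R]
      congr 1
      field_simp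
    rw [e1, le_div_iff₀ hq0R] at h1
    have h2 : (1 : ℝ) = (q : ℝ) ^ (5.05 : ℝ) * ((q : ℝ) ^ (-(6.05 : ℝ)) * q) := by
      have e2 : (q : ℝ) ^ (-(6.05 : ℝ)) * q = (q : ℝ) ^ (-(5.05 : ℝ)) := by
        rw [show (-(5.05 : ℝ)) = -(6.05 : ℝ) + 1 by norm_num, Real.rpow_add hq0R, Real.rpow_one]
      rw [e2, ← Real.rpow_add hq0R]
      norm_num
    rw [h2]
    exact mul_le_mul_of_nonneg_left h1 (by positivity)

open Classical in
/-- There are `c, C > 0` such that the following holds for all `N ≥ 1`.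
(1) For all integers `a ≠ 0`, `|a| ≤ N ^ c`, all residue classes `r` modulo `d ≤ N ^ c`, all real `x`
and all `B ≥ 2`, `k ≥ 1`, all but at most `C B ^ (k + 1) N (B² / N) ^ (c / (2 k B ^ k log B))` of the
primes `p ≤ N`, `p ≡ r (mod d)`, are such that in every base `2 ≤ b ≤ B` every word of `k` digits
stands infinitely often in the expansion of `a p π + x`.
(2) For every base `b ≥ 2` and every place `S` there is a place
`S ≤ s ≤ 6.05 S + 1.2625 log_b N + C` such that for all these `a`, `d`, `r`, `x`: the number of these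
primes with `u ≤ {b ^ s (a p π + x)} < v` is `v - u` times the number of all of them up to an error
of `C N (b² / N) ^ c`, for all `0 ≤ u ≤ v ≤ 1`; and for all `1 ≤ k ≤ L` with
`b ^ L ≤ (N / b²) ^ c` and `0 < ε ≤ 1`, for all but at most
`C k b ^ k exp (- ε² ⌊(L + 1 - k) / k⌋ / 4) N` of these primes every word of `k` digits stands among
the `L` digits of `a p π + x` after the place `s` the expected number `(L + 1 - k) / b ^ k` of
times, up to an error of `ε (L + 1 - k) + k`. -/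
theorem result : ∃ c C : ℝ, 0 < c ∧ 0 < C ∧ ∀ N : ℕ, 1 ≤ N →
    (∀ a : ℤ, a ≠ 0 → |(a : ℝ)| ≤ (N : ℝ) ^ c → ∀ d r : ℕ, 1 ≤ d → (d : ℝ) ≤ (N : ℝ) ^ c → ∀ x : ℝ,
      ∀ B k : ℕ, 2 ≤ B → 1 ≤ k →
        (((primes N d r).filter (fun p : ℕ => ∃ b : ℕ, 2 ≤ b ∧ b ≤ B ∧ ∃ w : Fin k → Fin b,
          {i : ℕ | Stands b k w (a * p * Real.pi + x) i}.Finite)).card : ℝ) ≤
        C * (B : ℝ) ^ (k + 1) * N *
          ((B : ℝ) ^ 2 / N) ^ (c / (2 * k * (B : ℝ) ^ k * Real.log B))) ∧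
    (∀ b : ℕ, 2 ≤ b → ∀ S : ℕ, ∃ s : ℕ, S ≤ s ∧
      (s : ℝ) ≤ 6.05 * S + 1.2625 * (Real.log N / Real.log b) + C ∧
      ∀ a : ℤ, a ≠ 0 → |(a : ℝ)| ≤ (N : ℝ) ^ c → ∀ d r : ℕ, 1 ≤ d → (d : ℝ) ≤ (N : ℝ) ^ c → ∀ x : ℝ,
      (∀ u v : ℝ, 0 ≤ u → u ≤ v → v ≤ 1 →
        |(((primes N d r).filter fun p : ℕ =>
            u ≤ Int.fract ((b : ℝ) ^ s * (a * p * Real.pi + x)) ∧
            Int.fract ((b : ℝ) ^ s * (a * p * Real.pi + x)) < v).card : ℝ) -
          (v - u) * (primes N d r).card| ≤ C * N * ((b : ℝ) ^ 2 / N) ^ c) ∧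
      (∀ k L : ℕ, 1 ≤ k → k ≤ L → (b : ℝ) ^ L ≤ ((N : ℝ) / (b : ℝ) ^ 2) ^ c →
        ∀ ε : ℝ, 0 < ε → ε ≤ 1 →
        (((primes N d r).filter (fun p : ℕ => ∃ w : Fin k → Fin b,
          ε * (L + 1 - k : ℕ) + k < |(count b k w (a * p * Real.pi + x) s (L + 1 - k) : ℝ) -
            (L + 1 - k : ℕ) / (b : ℝ) ^ k|)).card : ℝ) ≤
          C * k * (b : ℝ) ^ k * Real.exp (-(ε ^ 2 / 4) * ((L + 1 - k) / k : ℕ)) * N)) := by
  obtain ⟨c, K, hc, hK, h⟩ := Pool.Agent.Q220.PrM.main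
  obtain ⟨c0, hc0, hm⟩ := pi_measure
  have hl2 : 0 < Real.log 2 := Real.log_pos (by norm_num)
  obtain ⟨C, hC⟩ : ∃ C : ℝ, C = K + (|Real.log c0| / Real.log 2 + 1) := ⟨_, rfl⟩
  have hC1 : 0 ≤ |Real.log c0| / Real.log 2 + 1 := by positivity
  have hKC : K ≤ C := by linarith
  refine ⟨c, C, hc, by linarith, fun N hN => ?_⟩
  have hNr : (1 : ℝ) ≤ N := by exact_mod_cast hN
  obtain ⟨h1, h2⟩ := h Real.pi 5.05 c0 (by norm_num) hc0 hm N hN
  have hf : ∀ (a : ℤ) (x : ℝ) (p : ℕ), (a : ℝ) * p * Real.pi + x = a * Real.pi * p + x := by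
    intro a x p; ring
  refine ⟨?_, ?_⟩
  · intro a ha haN d r hd hdN x B k hB hk
    have h3 := h1 a ha haN d r hd hdN x B k hB hk
    simp only [hf]
    refine le_trans (le_of_eq ?_) (h3.trans ?_)
    · rfl
    · gcongr
  · intro b hb S
    obtain ⟨s, h3, h4, h5⟩ := h2 b hb S
    refine ⟨s, h3, ?_, ?_⟩
    · refine h4.trans ?_
      have e1 : (1 + 5.05 : ℝ) = 6.05 := by norm_num
      have e2 : (5.05 / 4 : ℝ) = 1.2625 := by norm_num
      rw [e1, e2]
      linarith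
    · intro a ha haN d r hd hdN x
      obtain ⟨h6, h7⟩ := h5 a ha haN d r hd hdN x
      simp only [hf]
      refine ⟨fun u v hu huv hv => (h6 u v hu huv hv).trans ?_,
        fun k L hk hkL hL ε hε hε1 => le_trans (le_of_eq ?_) ((h7 k L hk hkL hL ε hε hε1).trans ?_)⟩
      · gcongr
      · rfl
      · gcongr

end Pool.Agent.Results.MP_57632f_nt.PrimeMultiples
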